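import Pool.Agent.H629.CG.Stm

/-!
# Domination
-/

set_option autoImplicit false

namespace Pool.Agent.H772.CG.KDOM

open MeasureTheory ProbabilityTheory Filter Topology Set
open scoped ENNReal NNReal
open Pool.Agent.H629.CG

theorem int_one (c : ℝ) : Integrable (fun x : ℝ => Real.exp (c * |x|)) (gaussianReal 0 1) := by
  have h1 : Integrable (fun x : ℝ => Real.exp (c * x)) (gaussianReal 0 1) :=
    integrable_exp_mul_gaussianReal c
  have h2 : Integrable (fun x : ℝ => Real.exp (-c * x)) (gaussianReal 0 1) :=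
    integrable_exp_mul_gaussianReal (-c)
  refine (h1.add h2).mono' ?_ (Eventually.of_forall fun x => ?_)
  · exact (by fun_prop : Continuous fun x : ℝ => Real.exp (c * |x|)).aestronglyMeasurable
  · rw [Real.norm_eq_abs, abs_of_pos (Real.exp_pos _)]
    rcases abs_cases x with ⟨h, _⟩ | ⟨h, _⟩
    · rw [h]
      exact le_add_of_nonneg_right (Real.exp_pos _).le
    · rw [h]
      have : c * -x = -c * x := by ring
      rw [this]
      exact le_add_of_nonneg_left (Real.exp_pos _).le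

theorem int_all (N : ℕ) (c : ℝ) :
    Integrable (fun z : Fin N → ℝ => Real.exp (c * ∑ k, |z k|)) (gam N) := by
  have h : Integrable (fun z : Fin N → ℝ => ∏ k, Real.exp (c * |z k|))
      (Measure.pi fun _ : Fin N => gaussianReal 0 1) :=
    Integrable.fintype_prod (f := fun _ x => Real.exp (c * |x|)) fun _ => int_one c
  have h2 : (fun z : Fin N → ℝ => Real.exp (c * ∑ k, |z k|)) =
      fun z : Fin N → ℝ => ∏ k, Real.exp (c * |z k|) := by
    funext z
    rw [← Real.exp_sum, Finset.mul_sum]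
  rw [h2]
  exact h

theorem t_KDOM : S_KDOM := by
  refine ⟨int_all, ?_⟩
  intro n N hn R m
  obtain ⟨R0, hR0, hRR⟩ : ∃ R0 : ℝ, 0 ≤ R0 ∧ R ≤ R0 := ⟨max R 0, le_max_right _ _, le_max_left _ _⟩
  have hn0 : (0 : ℝ) < n := Nat.cast_pos.2 hn
  have hN0 : (0 : ℝ) ≤ N := Nat.cast_nonneg N
  refine ⟨(n : ℝ) ^ m + Real.exp (-m * (N * R0 ^ 2 / 2)) + 1, (|m| + 1) * R0, ?_⟩
  intro ξ hξ z
  set S : ℝ := ∑ k, |z k| with hS
  have hS0 : 0 ≤ S := Finset.sum_nonneg fun k _ => abs_nonneg _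
  have hnm : 0 < (n : ℝ) ^ m := Real.rpow_pos_of_pos hn0 m
  have hlin : ∀ i, |∑ k, ξ i k * z k| ≤ R0 * S := by
    intro i
    refine (Finset.abs_sum_le_sum_abs _ _).trans ?_
    rw [hS, Finset.mul_sum]
    refine Finset.sum_le_sum fun k _ => ?_
    rw [abs_mul]
    exact mul_le_mul_of_nonneg_right ((hξ i k).trans hRR) (abs_nonneg _)
  have hsq0 : ∀ i, 0 ≤ ∑ k, ξ i k ^ 2 := fun i => Finset.sum_nonneg fun k _ => sq_nonneg _
  have hsq : ∀ i, ∑ k, ξ i k ^ 2 ≤ N * R0 ^ 2 := by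
    intro i
    have h : ∀ k ∈ (Finset.univ : Finset (Fin N)), ξ i k ^ 2 ≤ R0 ^ 2 := by
      intro k _
      have := (hξ i k).trans hRR
      rw [← sq_abs]
      exact pow_le_pow_left₀ (abs_nonneg _) this 2
    refine (Finset.sum_le_card_nsmul _ _ _ h).trans ?_
    rw [Finset.card_univ, Fintype.card_fin, nsmul_eq_mul]
  have hup : ∀ i, ee ξ i z ≤ Real.exp (R0 * S) := by
    intro i
    unfold ee
    refine Real.exp_le_exp.2 ?_
    have := (abs_le.1 (hlin i)).2
    linarith [hsq0 i]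
  have hlo : ∀ i, Real.exp (-(R0 * S) - N * R0 ^ 2 / 2) ≤ ee ξ i z := by
    intro i
    unfold ee
    refine Real.exp_le_exp.2 ?_
    have := (abs_le.1 (hlin i)).1
    linarith [hsq i]
  have hee : ∀ i, 0 < ee ξ i z := fun i => Real.exp_pos _
  have hWup : WW ξ z ≤ n * Real.exp (R0 * S) := by
    unfold WW
    refine (Finset.sum_le_card_nsmul _ _ _ fun i _ => hup i).trans ?_
    rw [Finset.card_univ, Fintype.card_fin, nsmul_eq_mul]
  have hWlo : Real.exp (-(R0 * S) - N * R0 ^ 2 / 2) ≤ WW ξ z := by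
    unfold WW
    exact (hlo ⟨0, hn⟩).trans
      (Finset.single_le_sum (f := fun i => ee ξ i z) (fun i _ => (hee i).le) (Finset.mem_univ _))
  have hW0 : 0 < WW ξ z := (Real.exp_pos _).trans_le hWlo
  have hRS : 0 ≤ R0 * S := mul_nonneg hR0 hS0
  constructor
  · rcases le_or_gt 0 m with hm | hm
    · have h1 : WW ξ z ^ m ≤ (n * Real.exp (R0 * S)) ^ m :=
        Real.rpow_le_rpow hW0.le hWup hm
      rw [Real.mul_rpow hn0.le (Real.exp_pos _).le, ← Real.exp_mul] at h1
      refine h1.trans ?_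
      refine mul_le_mul ?_ (Real.exp_le_exp.2 ?_) (Real.exp_pos _).le (by positivity)
      · linarith [Real.exp_pos (-m * (N * R0 ^ 2 / 2))]
      · rw [abs_of_nonneg hm]
        nlinarith
    · have h1 : WW ξ z ^ m ≤ (Real.exp (-(R0 * S) - N * R0 ^ 2 / 2)) ^ m :=
        Real.rpow_le_rpow_of_nonpos (Real.exp_pos _) hWlo hm.le
      rw [← Real.exp_mul] at h1
      have h2 : (-(R0 * S) - N * R0 ^ 2 / 2) * m =
          -m * (N * R0 ^ 2 / 2) + (-m) * (R0 * S) := by ring
      rw [h2, Real.exp_add] at h1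
      refine h1.trans ?_
      refine mul_le_mul ?_ (Real.exp_le_exp.2 ?_) (Real.exp_pos _).le (by positivity)
      · linarith
      · rw [abs_of_neg hm]
        nlinarith
  · intro i
    refine (hup i).trans ?_
    have h1 : Real.exp (R0 * S) ≤ Real.exp ((|m| + 1) * R0 * S) := by
      refine Real.exp_le_exp.2 ?_
      have : 0 ≤ |m| * (R0 * S) := mul_nonneg (abs_nonneg _) hRS
      nlinarith
    refine h1.trans ?_
    have h2 : 1 ≤ (n : ℝ) ^ m + Real.exp (-m * (N * R0 ^ 2 / 2)) + 1 := by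
      linarith [Real.exp_pos (-m * (N * R0 ^ 2 / 2))]
    exact le_mul_of_one_le_left (Real.exp_pos _).le h2

end Pool.Agent.H772.CG.KDOM
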